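import Pool.Agent.X212.Ck.Count

/-!
The class `C_k[𝓜]` is not closed under arbitrary topological sums.
-/

namespace Pool.Agent.Results.MP_041d76_gt.SumsFail

open Set Topology TopologicalSpace Cardinal Pool.Agent.X212.Ck

universe u v w

/-- Membership in the class `C_k[𝓜]`: the space is homeomorphic to a subspace of `C_k(X, Y)` for
some separable metrizable `X` and some metrizable `Y`. Mathlib's topology on `C(X, Y)` is the
compact-open topology. -/
def InClass (Z : Type w) [TopologicalSpace Z] : Prop :=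
  ∃ (X : Type u) (_ : TopologicalSpace X) (Y : Type v) (_ : TopologicalSpace Y),
    SeparableSpace X ∧ MetrizableSpace X ∧ MetrizableSpace Y ∧ ∃ f : Z → C(X, Y), IsEmbedding f

/-- There is a family of spaces in `C_k[𝓜]` (with `X` and `Y` of the lowest universe) whose
topological sum is not in `C_k[𝓜]` (for `X` and `Y` in any universes). -/
theorem result : ∃ (I : Type) (Z : I → Type) (_ : ∀ i, TopologicalSpace (Z i)),
    (∀ i, InClass.{0, 0} (Z i)) ∧ ¬ InClass.{u, v} (Σ i, Z i) := by
  refine ⟨Set (ℕ → Bool), fun M => C(M, ℝ), fun M => inferInstance, ?_, ?_⟩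
  · intro M
    exact ⟨M, inferInstance, ℝ, inferInstance, inferInstance, inferInstance, inferInstance, id,
      IsEmbedding.id⟩
  · rintro ⟨X, tX, Y, tY, hX, -, hY, f, hf⟩
    obtain ⟨M, hM⟩ := exists_not_inducing.{u, v} X
    have h1 : IsEmbedding (fun g : C(M, ℝ) => (⟨M, g⟩ : Σ M : Set (ℕ → Bool), C(M, ℝ))) :=
      (IsOpenEmbedding.sigmaMk (ι := Set (ℕ → Bool)) (σ := fun M => C(M, ℝ)) (i := M)).isEmbedding
    exact hM Y _ (hf.comp h1).isInducing

end Pool.Agent.Results.MP_041d76_gt.SumsFail
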